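import Pool.Agent.K3h48.RK.Core

namespace K3h48.RK

open Set Topology Filter

universe u v w

/-- Compatibility with the linear operations `(a, b) ↦ p.1 a + p.2 b`, `p ∈ M`. -/
def IsM {X : Type u} [NormedAddCommGroup X] [NormedSpace ℝ X] (M : Set (ℝ × ℝ))
    {S : Set (WeakDual ℝ X)} (ρ : S → S) : Prop :=
  ∀ p ∈ M, ∀ a b c : S, (c : WeakDual ℝ X) = p.1 • (a : WeakDual ℝ X) + p.2 • (b : WeakDual ℝ X) →
    (ρ c : WeakDual ℝ X) = p.1 • (ρ a : WeakDual ℝ X) + p.2 • (ρ b : WeakDual ℝ X)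

variable {X : Type u} [NormedAddCommGroup X] [NormedSpace ℝ X] {S : Set (WeakDual ℝ X)}
  {Γ : Type w} [PartialOrder Γ] {r : Γ → S → S} {M : Set (ℝ × ℝ)}

theorem eval_cont (x : X) : Continuous (fun a : S => (a : WeakDual ℝ X) x) :=
  (WeakDual.eval_continuous x).comp continuous_subtype_val

theorem ext_of_eval {a b : S} (h : ∀ x : X, (a : WeakDual ℝ X) x = (b : WeakDual ℝ X) x) :
    a = b := by
  apply Subtype.ext
  exact DFunLike.ext _ _ h

/-- The first closing-off step. -/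
theorem step1 (R : IsRSkeleton r) (hS : IsCompact S)
    (hMS : ∀ p ∈ M, ∀ a ∈ S, ∀ b ∈ S, p.1 • a + p.2 • b ∈ S)
    (hMD : ∀ p ∈ M, ∀ a b : S, (∃ s, a ∈ range (r s)) → (∃ s, b ∈ range (r s)) →
      ∀ c : S, (c : WeakDual ℝ X) = p.1 • (a : WeakDual ℝ X) + p.2 • (b : WeakDual ℝ X) →
      ∃ s, c ∈ range (r s)) (s : Γ) :
    ∃ s', s ≤ s' ∧ ∀ p ∈ M, ∀ a ∈ range (r s), ∀ b ∈ range (r s), ∀ c : S,
      (c : WeakDual ℝ X) = p.1 • (a : WeakDual ℝ X) + p.2 • (b : WeakDual ℝ X) →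
      c ∈ range (r s') := by
  have : CompactSpace S := isCompact_iff_compactSpace.1 hS
  have := R.separable s
  let g : (M × range (r s)) × range (r s) → S := fun q =>
    ⟨q.1.1.1.1 • (q.1.2.1 : WeakDual ℝ X) + q.1.1.1.2 • (q.2.1 : WeakDual ℝ X),
      hMS _ q.1.1.2 _ q.1.2.1.2 _ q.2.1.2⟩
  have hg : Continuous g := by
    refine Continuous.subtype_mk ?_ _
    refine WeakDual.continuous_of_continuous_eval (fun x => ?_)
    show Continuous (fun q : (M × range (r s)) × range (r s) =>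
      q.1.1.1.1 * (q.1.2.1 : WeakDual ℝ X) x + q.1.1.1.2 * (q.2.1 : WeakDual ℝ X) x)
    refine (Continuous.mul ?_ ?_).add (Continuous.mul ?_ ?_)
    · exact continuous_fst.comp (continuous_subtype_val.comp (continuous_fst.comp continuous_fst))
    · exact (eval_cont x).comp (continuous_subtype_val.comp (continuous_snd.comp continuous_fst))
    · exact continuous_snd.comp (continuous_subtype_val.comp (continuous_fst.comp continuous_fst))
    · exact (eval_cont x).comp (continuous_subtype_val.comp continuous_snd)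
  obtain ⟨s', h1, h2⟩ := R.absorb g hg (fun q =>
    hMD _ q.1.1.2 q.1.2.1 q.2.1 ⟨s, q.1.2.2⟩ ⟨s, q.2.2⟩ _ rfl) s
  refine ⟨s', h1, fun p hp a ha b hb c hc => ?_⟩
  have h3 := h2 ((⟨p, hp⟩, ⟨a, ha⟩), ⟨b, hb⟩)
  have h4 : g ((⟨p, hp⟩, ⟨a, ha⟩), ⟨b, hb⟩) = c := by
    apply Subtype.ext
    exact hc.symm
  rwa [h4] at h3

/-- The second closing-off step. -/
theorem step2 (R : IsRSkeleton r) (hS : IsCompact S) (s : Γ) :
    ∃ s', s ≤ s' ∧ ∀ a b : S, r s a ≠ r s b →
      ∃ x : X, (∀ c : S, (r s' c : WeakDual ℝ X) x = (c : WeakDual ℝ X) x) ∧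
        (a : WeakDual ℝ X) x ≠ (b : WeakDual ℝ X) x := by
  have : CompactSpace S := isCompact_iff_compactSpace.1 hS
  have := R.metr s
  let _ := TopologicalSpace.metrizableSpaceMetric (range (r s))
  let π : S → range (r s) := fun a => ⟨r s a, ⟨a, rfl⟩⟩
  have hπ : Continuous π := (R.cont s).subtype_mk _
  have key : ∀ m : ℕ, ∃ T : Finset X, ∀ a b : S, 1 / ((m : ℝ) + 1) ≤ dist (π a) (π b) →
      ∃ x ∈ T, (a : WeakDual ℝ X) x ≠ (b : WeakDual ℝ X) x := by
    intro m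
    let C : Set (S × S) := {q | 1 / ((m : ℝ) + 1) ≤ dist (π q.1) (π q.2)}
    have hC : IsCompact C := by
      refine IsClosed.isCompact ?_
      exact isClosed_le continuous_const
        ((hπ.comp continuous_fst).dist (hπ.comp continuous_snd))
    obtain ⟨T, hT⟩ := hC.elim_finite_subcover
      (fun x : X => {q : S × S | (q.1 : WeakDual ℝ X) x ≠ (q.2 : WeakDual ℝ X) x})
      (fun x => isOpen_ne_fun ((eval_cont x).comp continuous_fst)
        ((eval_cont x).comp continuous_snd))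
      (by
        intro q hq
        by_contra hcon
        have h1 : q.1 = q.2 := by
          apply ext_of_eval
          intro x
          by_contra hne
          exact hcon (mem_iUnion.2 ⟨x, hne⟩)
        have h2 : 1 / ((m : ℝ) + 1) ≤ dist (π q.1) (π q.2) := hq
        rw [h1, dist_self] at h2
        have h3 : (0 : ℝ) < 1 / ((m : ℝ) + 1) := by positivity
        linarith)
    refine ⟨T, fun a b hab => ?_⟩
    obtain ⟨x, hx, hx'⟩ := mem_iUnion₂.1 (hT (show (a, b) ∈ C from hab))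
    exact ⟨x, hx, hx'⟩
  choose T hT using key
  have hfac : ∀ x : X, ∃ t, s ≤ t ∧ ∀ c : S, (r t c : WeakDual ℝ X) x = (c : WeakDual ℝ X) x :=
    fun x => R.factor (fun c : S => (c : WeakDual ℝ X) x) (eval_cont x) s
  choose tx htx1 htx2 using hfac
  let U : Set X := ⋃ m, (T m : Set X)
  have hU : U.Countable := countable_iUnion (fun m => (T m).countable_toSet)
  have : Countable U := hU.to_subtype
  obtain ⟨s', h1, h2⟩ := R.countable_bdd s (fun x : U => tx x)
  refine ⟨s', h1, fun a b hab => ?_⟩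
  have hne : π a ≠ π b := fun e => hab (congrArg Subtype.val e)
  obtain ⟨m, hm⟩ := exists_nat_one_div_lt (dist_pos.2 hne)
  obtain ⟨x, hx, hx'⟩ := hT m a b hm.le
  refine ⟨x, fun c => ?_, hx'⟩
  have hxU : x ∈ U := mem_iUnion.2 ⟨m, hx⟩
  have h3 : tx x ≤ s' := h2 ⟨x, hxU⟩
  rw [← htx2 x (r s' c), R.comp1 h3, htx2 x c]

/-- Cofinally many of the retractions are affine. -/
theorem aff (R : IsRSkeleton r) (hS : IsCompact S)
    (hMS : ∀ p ∈ M, ∀ a ∈ S, ∀ b ∈ S, p.1 • a + p.2 • b ∈ S)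
    (hMD : ∀ p ∈ M, ∀ a b : S, (∃ s, a ∈ range (r s)) → (∃ s, b ∈ range (r s)) →
      ∀ c : S, (c : WeakDual ℝ X) = p.1 • (a : WeakDual ℝ X) + p.2 • (b : WeakDual ℝ X) →
      ∃ s, c ∈ range (r s)) (s₀ : Γ) :
    ∃ t, s₀ ≤ t ∧ IsM M (r t) := by
  have : CompactSpace S := isCompact_iff_compactSpace.1 hS
  have hstep : ∀ s, ∃ s', s ≤ s' ∧
      (∀ p ∈ M, ∀ a ∈ range (r s), ∀ b ∈ range (r s), ∀ c : S,
        (c : WeakDual ℝ X) = p.1 • (a : WeakDual ℝ X) + p.2 • (b : WeakDual ℝ X) →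
        c ∈ range (r s')) ∧
      (∀ a b : S, r s a ≠ r s b →
        ∃ x : X, (∀ c : S, (r s' c : WeakDual ℝ X) x = (c : WeakDual ℝ X) x) ∧
          (a : WeakDual ℝ X) x ≠ (b : WeakDual ℝ X) x) := by
    intro s
    obtain ⟨s1, h1, h1'⟩ := step1 R hS hMS hMD s
    obtain ⟨s2, h2, h2'⟩ := step2 R hS s
    obtain ⟨s', h3, h4⟩ := R.directed s1 s2
    refine ⟨s', h1.trans h3, ?_, ?_⟩
    · intro p hp a ha b hb c hc
      exact R.range_mono h3 (h1' p hp a ha b hb c hc)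
    · intro a b hab
      obtain ⟨x, hx, hx'⟩ := h2' a b hab
      refine ⟨x, fun c => ?_, hx'⟩
      rw [← hx (r s' c), R.comp1 h4, hx c]
  choose nx hn1 hn2 hn3 using hstep
  let σ : ℕ → Γ := fun n => nx^[n] s₀
  have hσ : ∀ n, σ (n + 1) = nx (σ n) := fun n => Function.iterate_succ_apply' nx n s₀
  have hmono : Monotone σ := monotone_nat_of_le_succ (fun n => by rw [hσ]; exact hn1 _)
  obtain ⟨t, ht, φ, hlim⟩ := R.mono_seq σ hmono
  refine ⟨t, ht 0, ?_⟩
  -- functions that factor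
  have hfac : ∀ n x, (∀ c : S, (r (σ n) c : WeakDual ℝ X) x = (c : WeakDual ℝ X) x) →
      ∀ c : S, (r t c : WeakDual ℝ X) x = (c : WeakDual ℝ X) x := by
    intro n x hx c
    rw [← hx (r t c), R.comp1 (ht n), hx c]
  intro p hp a b c hc
  -- the candidate
  let w : S := ⟨p.1 • (r t a : WeakDual ℝ X) + p.2 • (r t b : WeakDual ℝ X),
    hMS p hp _ (r t a).2 _ (r t b).2⟩
  let wk : ℕ → S := fun k => ⟨p.1 • (r (σ (φ k)) a : WeakDual ℝ X)
    + p.2 • (r (σ (φ k)) b : WeakDual ℝ X), hMS p hp _ (r (σ (φ k)) a).2 _ (r (σ (φ k)) b).2⟩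
  have hwk : ∀ k, wk k ∈ range (r t) := by
    intro k
    have h1 : wk k ∈ range (r (nx (σ (φ k)))) :=
      hn2 (σ (φ k)) p hp _ ⟨a, rfl⟩ _ ⟨b, rfl⟩ (wk k) rfl
    rw [← hσ] at h1
    exact R.range_mono (ht _) h1
  have hwlim : Tendsto wk atTop (𝓝 w) := by
    rw [tendsto_subtype_rng]
    refine Tendsto.add ?_ ?_
    · exact Tendsto.const_smul ((continuous_subtype_val.tendsto _).comp (hlim a)) _
    · exact Tendsto.const_smul ((continuous_subtype_val.tendsto _).comp (hlim b)) _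
  have hw : w ∈ range (r t) :=
    ((isCompact_range (R.cont t)).isClosed).mem_of_tendsto hwlim (Eventually.of_forall hwk)
  have hfin : r t c = w := by
    by_contra hne
    have h1 : ∃ k, r (σ (φ k)) (r t c) ≠ r (σ (φ k)) w := by
      by_contra hcon
      push Not at hcon
      have h2 : r t (r t c) = r t w :=
        tendsto_nhds_unique (hlim (r t c)) ((hlim w).congr (fun k => (hcon k).symm))
      rw [R.retr, R.mem_range.1 hw] at h2
      exact hne h2
    obtain ⟨k, hk⟩ := h1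
    obtain ⟨x, hx, hx'⟩ := hn3 (σ (φ k)) _ _ hk
    rw [← hσ] at hx
    have hx2 := hfac _ x hx
    refine hx' ?_
    rw [hx2 c, hc]
    show (p.1 • (a : WeakDual ℝ X) + p.2 • (b : WeakDual ℝ X)) x
      = (p.1 • (r t a : WeakDual ℝ X) + p.2 • (r t b : WeakDual ℝ X)) x
    have h3 : ∀ (φ ψ : WeakDual ℝ X), (p.1 • φ + p.2 • ψ) x = p.1 * φ x + p.2 * ψ x := by
      intro φ ψ; rfl
    rw [h3, h3, hx2 a, hx2 b]
  rw [hfin]

omit [PartialOrder Γ] in
/-- Limits of affine retractions are affine. -/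
theorem isM_lim (σ : ℕ → Γ) (t : Γ) (hσ : ∀ n, IsM M (r (σ n)))
    (hlim : ∀ x, Tendsto (fun n => r (σ n) x) atTop (𝓝 (r t x))) : IsM M (r t) := by
  intro p hp a b c hc
  have h1 : Tendsto (fun n => (r (σ n) c : WeakDual ℝ X)) atTop (𝓝 (r t c : WeakDual ℝ X)) :=
    (continuous_subtype_val.tendsto _).comp (hlim c)
  have h2 : Tendsto (fun n => p.1 • (r (σ n) a : WeakDual ℝ X) + p.2 • (r (σ n) b : WeakDual ℝ X))
      atTop (𝓝 (p.1 • (r t a : WeakDual ℝ X) + p.2 • (r t b : WeakDual ℝ X))) := by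
    refine Tendsto.add ?_ ?_
    · exact Tendsto.const_smul ((continuous_subtype_val.tendsto _).comp (hlim a)) _
    · exact Tendsto.const_smul ((continuous_subtype_val.tendsto _).comp (hlim b)) _
  refine tendsto_nhds_unique h1 (h2.congr (fun n => ?_))
  exact (hσ n p hp a b c hc).symm

end K3h48.RK
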