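import Pool.Agent.K3h48.RK.Stm

namespace K3h48.RK

open Set Topology Filter

universe u v w

section basic

variable {L : Type u} [TopologicalSpace L] {Γ : Type w} [PartialOrder Γ] {r : Γ → L → L}

theorem IsRSkeleton.comp1 (R : IsRSkeleton r) {s t : Γ} (h : s ≤ t) (x : L) :
    r s (r t x) = r s x := (congrFun (R.comp s t h).1 x).symm

theorem IsRSkeleton.comp2 (R : IsRSkeleton r) {s t : Γ} (h : s ≤ t) (x : L) :
    r t (r s x) = r s x := (congrFun (R.comp s t h).2 x).symm

theorem IsRSkeleton.mem_range (R : IsRSkeleton r) {s : Γ} {x : L} :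
    x ∈ range (r s) ↔ r s x = x := by
  constructor
  · rintro ⟨y, rfl⟩; exact R.retr s y
  · intro h; exact ⟨x, h⟩

theorem IsRSkeleton.range_mono (R : IsRSkeleton r) {s t : Γ} (h : s ≤ t) :
    range (r s) ⊆ range (r t) := by
  rintro _ ⟨y, rfl⟩
  exact ⟨r s y, R.comp2 h y⟩

/-- Monotone sequences have upper bounds that are limits along a subsequence. -/
theorem IsRSkeleton.mono_seq (R : IsRSkeleton r) (σ : ℕ → Γ) (hσ : Monotone σ) :
    ∃ t, (∀ n, σ n ≤ t) ∧ ∃ φ : ℕ → ℕ, ∀ x, Tendsto (fun k => r (σ (φ k)) x) atTop (𝓝 (r t x)) := by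
  by_cases h : ∃ N, ∀ n ≥ N, σ n = σ N
  · obtain ⟨N, hN⟩ := h
    refine ⟨σ N, fun n => ?_, fun _ => N, fun x => tendsto_const_nhds⟩
    rcases le_total n N with hn | hn
    · exact hσ hn
    · exact (hN n hn).le
  · push Not at h
    choose g hg1 hg2 using h
    have hlt : ∀ N, σ N < σ (g N) := fun N => lt_of_le_of_ne (hσ (hg1 N)) (Ne.symm (hg2 N))
    have hltN : ∀ N, N < g N := fun N =>
      lt_of_le_of_ne (hg1 N) (fun e => hg2 N (by rw [← e]))
    let φ : ℕ → ℕ := fun k => g^[k] 0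
    have hφ : ∀ k, φ (k + 1) = g (φ k) := fun k => Function.iterate_succ_apply' g k 0
    have h1 : StrictMono φ := strictMono_nat_of_lt_succ (fun k => by rw [hφ]; exact hltN _)
    have h2 : StrictMono (fun k => σ (φ k)) :=
      strictMono_nat_of_lt_succ (fun k => by rw [hφ]; exact hlt _)
    obtain ⟨t, ht, hlim⟩ := R.seq _ h2
    refine ⟨t, fun n => ?_, φ, hlim⟩
    exact (hσ (h1.le_apply)).trans (ht.1 ⟨n, rfl⟩)

/-- Sequences are bounded. -/
theorem IsRSkeleton.seq_bdd (R : IsRSkeleton r) (s : Γ) (c : ℕ → Γ) :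
    ∃ t, s ≤ t ∧ ∀ n, c n ≤ t := by
  choose q hq1 hq2 using R.directed
  let σ : ℕ → Γ := fun n => Nat.rec s (fun n p => q p (c n)) n
  have ht : ∀ n, σ (n + 1) = q (σ n) (c n) := fun n => rfl
  have hm : Monotone σ := monotone_nat_of_le_succ (fun n => by rw [ht]; exact hq1 _ _)
  obtain ⟨t, ht', -⟩ := R.mono_seq σ hm
  refine ⟨t, ht' 0, fun n => ?_⟩
  exact le_trans (by rw [ht]; exact hq2 _ _) (ht' (n + 1))

theorem IsRSkeleton.countable_bdd (R : IsRSkeleton r) (s : Γ) {ι : Type v} [Countable ι]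
    (c : ι → Γ) : ∃ t, s ≤ t ∧ ∀ i, c i ≤ t := by
  by_cases h : Nonempty ι
  · obtain ⟨f, hf⟩ := exists_surjective_nat ι
    obtain ⟨t, h1, h2⟩ := R.seq_bdd s (c ∘ f)
    refine ⟨t, h1, fun i => ?_⟩
    obtain ⟨n, rfl⟩ := hf i
    exact h2 n
  · exact ⟨s, le_rfl, fun i => (h ⟨i⟩).elim⟩

theorem IsRSkeleton.sep_points (R : IsRSkeleton r) [T2Space L] {a b : L} (hab : a ≠ b) :
    ∃ s, r s a ≠ r s b := by
  have h1 : Nonempty Γ := R.nonempty
  have h2 : IsDirected Γ (· ≤ ·) := ⟨R.directed⟩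
  by_contra h
  push Not at h
  refine hab (tendsto_nhds_unique (R.conv a) ?_)
  refine (R.conv b).congr (fun s => (h s).symm)

/-- Every continuous function factors through some retraction. -/
theorem IsRSkeleton.factor (R : IsRSkeleton r) [CompactSpace L] [T2Space L] (f : L → ℝ)
    (hf : Continuous f) (s₀ : Γ) : ∃ t, s₀ ≤ t ∧ ∀ x, f (r t x) = f x := by
  have h1 : Nonempty Γ := R.nonempty
  have key : ∀ m : ℕ, ∃ s, ∀ a b, 1 / ((m : ℝ) + 1) ≤ |f a - f b| → r s a ≠ r s b := by
    intro m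
    let C : Set (L × L) := {p | 1 / ((m : ℝ) + 1) ≤ |f p.1 - f p.2|}
    have hC : IsCompact C := by
      refine IsClosed.isCompact ?_
      exact isClosed_le continuous_const
        (((hf.comp continuous_fst).sub (hf.comp continuous_snd)).abs)
    let W : Γ → Set (L × L) := fun s => {p | r s p.1 ≠ r s p.2}
    obtain ⟨s, hs⟩ := hC.elim_directed_cover W
      (fun s => isOpen_ne_fun ((R.cont s).comp continuous_fst) ((R.cont s).comp continuous_snd))
      (by
        intro p hp
        have hne : p.1 ≠ p.2 := by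
          intro e
          have : 1 / ((m : ℝ) + 1) ≤ |f p.1 - f p.2| := hp
          rw [e, sub_self, abs_zero] at this
          have h3 : (0 : ℝ) < 1 / ((m : ℝ) + 1) := by positivity
          linarith
        obtain ⟨s, hs⟩ := R.sep_points hne
        exact mem_iUnion.2 ⟨s, hs⟩)
      (by
        intro s t
        obtain ⟨q, hq1, hq2⟩ := R.directed s t
        refine ⟨q, ?_, ?_⟩
        · intro p hp e
          refine hp ?_
          rw [← R.comp1 hq1 p.1, ← R.comp1 hq1 p.2, e]
        · intro p hp e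
          refine hp ?_
          rw [← R.comp1 hq2 p.1, ← R.comp1 hq2 p.2, e])
    exact ⟨s, fun a b hab => hs (show (a, b) ∈ C from hab)⟩
  choose s hs using key
  obtain ⟨t, ht0, ht⟩ := R.seq_bdd s₀ s
  refine ⟨t, ht0, fun x => ?_⟩
  by_contra hne
  have hpos : 0 < |f (r t x) - f x| := abs_pos.2 (sub_ne_zero.2 hne)
  obtain ⟨m, hm⟩ := exists_nat_one_div_lt hpos
  exact hs m _ _ hm.le (R.comp1 (ht m) x)

/-- Continuous functions converge uniformly along increasing sequences. -/
theorem IsRSkeleton.unif (R : IsRSkeleton r) [CompactSpace L] [T2Space L] (f : L → ℝ)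
    (hf : Continuous f) (σ : ℕ → Γ) (hσ : Monotone σ) (t : Γ) (ht : ∀ n, σ n ≤ t)
    (hlim : ∀ x, Tendsto (fun n => r (σ n) x) atTop (𝓝 (r t x))) (ε : ℝ) (hε : 0 < ε) :
    ∃ N, ∀ m ≥ N, ∀ x, |f (r (σ m) x) - f (r t x)| < ε := by
  have hK : IsClosed (range (r t)) := (isCompact_range (R.cont t)).isClosed
  let C : Set (L × L) := {p | ε ≤ |f p.1 - f p.2|} ∩ (range (r t) ×ˢ range (r t))
  have hC : IsCompact C := by
    refine IsClosed.isCompact ?_
    refine IsClosed.inter ?_ (hK.prod hK)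
    exact isClosed_le continuous_const
      (((hf.comp continuous_fst).sub (hf.comp continuous_snd)).abs)
  let W : ℕ → Set (L × L) := fun n => {p | r (σ n) p.1 ≠ r (σ n) p.2}
  obtain ⟨N, hN⟩ := hC.elim_directed_cover W
    (fun n => isOpen_ne_fun ((R.cont (σ n)).comp continuous_fst)
      ((R.cont (σ n)).comp continuous_snd))
    (by
      intro p hp
      by_contra hcon
      have h1 : ∀ n, r (σ n) p.1 = r (σ n) p.2 := by
        intro n
        by_contra hne
        exact hcon (mem_iUnion.2 ⟨n, hne⟩)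
      have h2 : r t p.1 = r t p.2 :=
        tendsto_nhds_unique (hlim p.1) ((hlim p.2).congr (fun n => (h1 n).symm))
      have h3 : p.1 = p.2 := by
        rw [← R.mem_range.1 hp.2.1, ← R.mem_range.1 hp.2.2, h2]
      have h4 : ε ≤ |f p.1 - f p.2| := hp.1
      rw [h3, sub_self, abs_zero] at h4
      linarith)
    (by
      refine directed_of_isDirected_le ?_
      intro n m hnm p hp e
      refine hp ?_
      rw [← R.comp1 (hσ hnm) p.1, ← R.comp1 (hσ hnm) p.2, e])
  refine ⟨N, fun m hm x => ?_⟩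
  by_contra hcon
  have h1 : (r (σ m) x, r t x) ∈ C :=
    ⟨not_lt.1 hcon, R.range_mono (ht m) ⟨x, rfl⟩, ⟨x, rfl⟩⟩
  refine hN h1 ?_
  show r (σ N) (r (σ m) x) = r (σ N) (r t x)
  rw [R.comp1 (hσ hm), R.comp1 (ht N)]

/-- A separable family of points of the induced set lies in one of the ranges. -/
theorem IsRSkeleton.absorb (R : IsRSkeleton r) [CompactSpace L] [T2Space L] {A : Type v}
    [TopologicalSpace A] [TopologicalSpace.SeparableSpace A] (g : A → L) (hg : Continuous g)
    (hgD : ∀ a, ∃ s, g a ∈ range (r s)) (s : Γ) :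
    ∃ s', s ≤ s' ∧ ∀ a, g a ∈ range (r s') := by
  obtain ⟨c, hc, hd⟩ := TopologicalSpace.exists_countable_dense A
  choose ix hix using hgD
  have : Countable c := hc.to_subtype
  obtain ⟨s', h1, h2⟩ := R.countable_bdd s (fun a : c => ix a)
  refine ⟨s', h1, fun a => ?_⟩
  have hcl : IsClosed (g ⁻¹' range (r s')) :=
    ((isCompact_range (R.cont s')).isClosed).preimage hg
  have hsub : c ⊆ g ⁻¹' range (r s') := fun a ha => R.range_mono (h2 ⟨a, ha⟩) (hix a)
  have : closure c ⊆ g ⁻¹' range (r s') := closure_minimal hsub hcl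
  exact this (hd a)

theorem IsRSkeleton.separable (R : IsRSkeleton r) [CompactSpace L] [T2Space L] (s : Γ) :
    TopologicalSpace.SeparableSpace (range (r s)) := by
  have := R.metr s
  have : CompactSpace (range (r s)) := isCompact_iff_compactSpace.1 (isCompact_range (R.cont s))
  let _ := TopologicalSpace.metrizableSpaceMetric (range (r s))
  infer_instance

end basic

end K3h48.RK
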