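import Pool.Agent.K3h48.RK.Aff
import Pool.Agent.K3h43.RK.HULL
import Pool.Agent.K3h57.RK.DUAL

namespace K3h48.RK

open Set Topology Filter

universe u v w

section ops

variable {K : Type u} [TopologicalSpace K] [CompactSpace K] {S : Set (WeakDual ℝ C(K, ℝ))}

theorem dirac_cont (hdir : ∀ x, dirac K x ∈ S) :
    Continuous (fun x : K => (⟨dirac K x, hdir x⟩ : S)) := by
  refine Continuous.subtype_mk ?_ _
  refine WeakDual.continuous_of_continuous_eval (fun f => ?_)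
  exact f.continuous

/-- The operator on `C(K)` given by a map of `S`. -/
noncomputable def opFun (hdir : ∀ x, dirac K x ∈ S) (ρ : S → S) (hρ : Continuous ρ)
    (f : C(K, ℝ)) : C(K, ℝ) :=
  ⟨fun x => (ρ ⟨dirac K x, hdir x⟩ : WeakDual ℝ C(K, ℝ)) f,
    (eval_cont f).comp (hρ.comp (dirac_cont hdir))⟩

/-- The operator as a continuous linear map. -/
noncomputable def op (hSb : S ⊆ DBall C(K, ℝ)) (hdir : ∀ x, dirac K x ∈ S) (ρ : S → S)
    (hρ : Continuous ρ) : C(K, ℝ) →L[ℝ] C(K, ℝ) :=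
  LinearMap.mkContinuous
    { toFun := opFun hdir ρ hρ
      map_add' := fun f g => by
        ext x
        exact map_add (ρ ⟨dirac K x, hdir x⟩ : WeakDual ℝ C(K, ℝ)) f g
      map_smul' := fun c f => by
        ext x
        exact map_smul (ρ ⟨dirac K x, hdir x⟩ : WeakDual ℝ C(K, ℝ)) c f } 1
    (by
      intro f
      rw [one_mul]
      refine (ContinuousMap.norm_le _ (norm_nonneg f)).2 (fun x => ?_)
      exact hSb (ρ ⟨dirac K x, hdir x⟩).2 f)

theorem op_apply (hSb : S ⊆ DBall C(K, ℝ)) (hdir : ∀ x, dirac K x ∈ S) (ρ : S → S)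
    (hρ : Continuous ρ) (f : C(K, ℝ)) (x : K) :
    op hSb hdir ρ hρ f x = (ρ ⟨dirac K x, hdir x⟩ : WeakDual ℝ C(K, ℝ)) f := rfl

theorem op_norm (hSb : S ⊆ DBall C(K, ℝ)) (hdir : ∀ x, dirac K x ∈ S) (ρ : S → S)
    (hρ : Continuous ρ) : ‖op hSb hdir ρ hρ‖ ≤ 1 :=
  LinearMap.mkContinuous_norm_le _ zero_le_one _

end ops

theorem fin (K : Type u) [TopologicalSpace K] [CompactSpace K]
    (S : Set (WeakDual ℝ C(K, ℝ))) (hS : IsCompact S) (hSb : S ⊆ DBall C(K, ℝ))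
    (hdir : ∀ x, dirac K x ∈ S) (M : Set (ℝ × ℝ))
    (h01 : ∀ c : ℝ, 0 ≤ c → c ≤ 1 → (c, 1 - c) ∈ M)
    (hMS : ∀ p ∈ M, ∀ a ∈ S, ∀ b ∈ S, p.1 • a + p.2 • b ∈ S)
    (hull : ∀ C ⊆ S, IsClosed C → Convex ℝ C → (∀ x, dirac K x ∈ C) →
      (∀ p ∈ M, ∀ a ∈ C, ∀ b ∈ C, p.1 • a + p.2 • b ∈ C) → S ⊆ C)
    {Γ : Type w} [PartialOrder Γ] (r : Γ → S → S) (R : IsRSkeleton r)
    (hMD : ∀ p ∈ M, ∀ a b : S, (∃ s, a ∈ range (r s)) → (∃ s, b ∈ range (r s)) →
      ∀ c : S, (c : WeakDual ℝ C(K, ℝ)) = p.1 • (a : WeakDual ℝ C(K, ℝ)) + p.2 • (b : WeakDual ℝ C(K, ℝ)) →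
      ∃ s, c ∈ range (r s)) : CondI.{u, w} K := by
  have hSc : CompactSpace S := isCompact_iff_compactSpace.1 hS
  have haff := aff R hS hMS hMD
  let P : {t : Γ // IsM M (r t)} → C(K, ℝ) →L[ℝ] C(K, ℝ) := fun t =>
    op hSb hdir (r t.1) (R.cont t.1)
  have hP : ∀ t f x, P t f x = (r t.1 ⟨dirac K x, hdir x⟩ : WeakDual ℝ C(K, ℝ)) f :=
    fun t f x => rfl
  -- the fundamental identity
  have hid : ∀ (t : {t : Γ // IsM M (r t)}) (f : C(K, ℝ)) (φ : S),
      (φ : WeakDual ℝ C(K, ℝ)) (P t f) = (r t.1 φ : WeakDual ℝ C(K, ℝ)) f := by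
    intro t f φ
    let C : Set (WeakDual ℝ C(K, ℝ)) := (Subtype.val : S → WeakDual ℝ C(K, ℝ)) ''
      {φ : S | (φ : WeakDual ℝ C(K, ℝ)) (P t f) = (r t.1 φ : WeakDual ℝ C(K, ℝ)) f}
    have hCS : C ⊆ S := by
      rintro _ ⟨ψ, -, rfl⟩; exact ψ.2
    have hCc : IsClosed C := by
      refine (IsCompact.image (IsClosed.isCompact ?_) continuous_subtype_val).isClosed
      exact isClosed_eq (eval_cont _) ((eval_cont f).comp (R.cont t.1))
    have hCM : ∀ p ∈ M, ∀ a ∈ C, ∀ b ∈ C, p.1 • a + p.2 • b ∈ C := by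
      rintro p hp _ ⟨a, ha, rfl⟩ _ ⟨b, hb, rfl⟩
      refine ⟨⟨p.1 • (a : WeakDual ℝ C(K, ℝ)) + p.2 • (b : WeakDual ℝ C(K, ℝ)),
        hMS p hp _ a.2 _ b.2⟩, ?_, rfl⟩
      have h1 := t.2 p hp a b ⟨p.1 • (a : WeakDual ℝ C(K, ℝ)) + p.2 • (b : WeakDual ℝ C(K, ℝ)),
        hMS p hp _ a.2 _ b.2⟩ rfl
      have h3 : ∀ (φ ψ : WeakDual ℝ C(K, ℝ)) (x : C(K, ℝ)),
          (p.1 • φ + p.2 • ψ) x = p.1 * φ x + p.2 * ψ x := by
        intro φ ψ x; rfl
      have ha' : (a : WeakDual ℝ C(K, ℝ)) (P t f) = (r t.1 a : WeakDual ℝ C(K, ℝ)) f := ha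
      have hb' : (b : WeakDual ℝ C(K, ℝ)) (P t f) = (r t.1 b : WeakDual ℝ C(K, ℝ)) f := hb
      rw [Set.mem_ofPred_eq, h1, h3, h3, ha', hb']
    have hCv : Convex ℝ C := by
      intro a ha b hb c d hc hd hcd
      have hd' : d = 1 - c := by linarith
      rw [hd']
      exact hCM (c, 1 - c) (h01 c hc (by linarith)) a ha b hb
    have hCd : ∀ x, dirac K x ∈ C := fun x => ⟨⟨dirac K x, hdir x⟩, rfl, rfl⟩
    obtain ⟨ψ, hψ, hψφ⟩ := hull C hCS hCc hCv hCd hCM φ.2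
    have : ψ = φ := Subtype.ext hψφ
    rw [this] at hψ
    exact hψ
  have hle1 : ∀ s t : {t : Γ // IsM M (r t)}, s ≤ t → ∀ f, P s (P t f) = P s f := by
    intro s t hst f
    ext x
    rw [hP, hP, hid, R.comp2 (show s.1 ≤ t.1 from hst)]
  have hle2 : ∀ s t : {t : Γ // IsM M (r t)}, s ≤ t → ∀ f, P t (P s f) = P s f := by
    intro s t hst f
    ext x
    rw [hP, hP, hid, R.comp1 (show s.1 ≤ t.1 from hst)]
  refine ⟨{t : Γ // IsM M (r t)}, inferInstance, P, ?_⟩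
  refine ⟨?_, ?_, ?_, ?_, ?_, ?_, ?_, ?_⟩
  · obtain ⟨s⟩ := R.nonempty
    obtain ⟨t, -, ht⟩ := haff s
    exact ⟨⟨t, ht⟩⟩
  · intro s t
    obtain ⟨q, hq1, hq2⟩ := R.directed s.1 t.1
    obtain ⟨q', hq', hq''⟩ := haff q
    exact ⟨⟨q', hq''⟩, hq1.trans hq', hq2.trans hq'⟩
  · intro s
    ext1 f
    exact hle1 s s le_rfl f
  · intro s
    exact op_norm hSb hdir _ _
  · intro s
    have h1 := R.metr s.1
    have h2 : CompactSpace (range (r s.1)) :=
      isCompact_iff_compactSpace.1 (isCompact_range (R.cont s.1))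
    let _ := TopologicalSpace.metrizableSpaceMetric (range (r s.1))
    let g : C(K, range (r s.1)) := ⟨fun x => ⟨r s.1 ⟨dirac K x, hdir x⟩, ⟨_, rfl⟩⟩,
      ((R.cont s.1).comp (dirac_cont hdir)).subtype_mk _⟩
    have h3 : TopologicalSpace.SeparableSpace C(range (r s.1), ℝ) := inferInstance
    have h4 : TopologicalSpace.IsSeparable
        (range (fun q : C(range (r s.1), ℝ) => q.comp g)) :=
      TopologicalSpace.isSeparable_range (ContinuousMap.continuous_precomp g)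
    have h5 : range (P s) ⊆ range (fun q : C(range (r s.1), ℝ) => q.comp g) := by
      rintro _ ⟨f, rfl⟩
      refine ⟨⟨fun φ => ((φ : S) : WeakDual ℝ C(K, ℝ)) f,
        (eval_cont f).comp continuous_subtype_val⟩, ?_⟩
      ext x
      rfl
    exact (h4.mono h5).separableSpace
  · intro f
    obtain ⟨s₀⟩ := R.nonempty
    obtain ⟨t, -, ht⟩ := R.factor (fun φ : S => (φ : WeakDual ℝ C(K, ℝ)) f) (eval_cont f) s₀
    obtain ⟨t', htt', ht'⟩ := haff t
    refine ⟨⟨t', ht'⟩, f, ?_⟩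
    ext x
    rw [hP]
    have h1 := ht (r t' ⟨dirac K x, hdir x⟩)
    rw [R.comp1 htt', ht] at h1
    exact h1.symm
  · intro s t hst
    constructor
    · ext1 f
      exact (hle1 s t hst f).symm
    · ext1 f
      exact (hle2 s t hst f).symm
  · intro σ hσ
    have hσ' : StrictMono (fun n => (σ n).1) := hσ
    obtain ⟨t, hlub, hlim⟩ := R.seq _ hσ'
    have htM : IsM M (r t) := isM_lim (fun n => (σ n).1) t (fun n => (σ n).2) hlim
    have hle : ∀ n, σ n ≤ (⟨t, htM⟩ : {t : Γ // IsM M (r t)}) := fun n => hlub.1 ⟨n, rfl⟩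
    refine ⟨⟨t, htM⟩, ⟨?_, ?_⟩, ?_⟩
    · rintro _ ⟨n, rfl⟩
      exact hle n
    · intro q hq
      show t ≤ q.1
      refine hlub.2 ?_
      rintro _ ⟨n, rfl⟩
      exact hq ⟨n, rfl⟩
    · apply Subset.antisymm
      · rintro _ ⟨f, rfl⟩
        rw [Metric.mem_closure_iff]
        intro ε hε
        obtain ⟨N, hN⟩ := R.unif (fun φ : S => (φ : WeakDual ℝ C(K, ℝ)) f) (eval_cont f)
          (fun n => (σ n).1) hσ'.monotone t (fun n => hlub.1 ⟨n, rfl⟩) hlim (ε / 2) (half_pos hε)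
        refine ⟨P (σ N) f, mem_iUnion.2 ⟨N, f, rfl⟩, ?_⟩
        rw [dist_eq_norm]
        refine lt_of_le_of_lt ?_ (half_lt_self hε)
        refine (ContinuousMap.norm_le _ (half_pos hε).le).2 (fun x => ?_)
        rw [Real.norm_eq_abs, ContinuousMap.sub_apply, abs_sub_comm]
        exact (hN N le_rfl ⟨dirac K x, hdir x⟩).le
      · refine closure_minimal ?_ ?_
        · intro y hy
          obtain ⟨n, f, rfl⟩ := mem_iUnion.1 hy
          exact ⟨P (σ n) f, hle2 _ _ (hle n) f⟩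
        · have h1 : range (P ⟨t, htM⟩) = {y | P ⟨t, htM⟩ y = y} := by
            ext y
            constructor
            · rintro ⟨f, rfl⟩
              exact hle1 _ _ le_rfl f
            · intro hy
              exact ⟨y, hy⟩
          rw [h1]
          exact isClosed_eq (P ⟨t, htM⟩).continuous continuous_id

end K3h48.RK
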