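import Pool.Agent.K3h48.RK.Fin

namespace K3h48.RK

open Set Topology Filter

universe u v w

theorem dirac_app (K : Type u) [TopologicalSpace K] [CompactSpace K] (x : K) (f : C(K, ℝ)) :
    dirac K x f = f x := rfl

theorem prob_le (K : Type u) [TopologicalSpace K] [CompactSpace K] (μ : WeakDual ℝ C(K, ℝ))
    (hμ : μ ∈ Prob K) (f : C(K, ℝ)) : μ f ≤ ‖f‖ := by
  have h1 : 0 ≤ ‖f‖ • (1 : C(K, ℝ)) - f := by
    rw [sub_nonneg]
    intro x
    show f x ≤ ‖f‖ • (1 : ℝ)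
    rw [smul_eq_mul, mul_one]
    exact (le_abs_self _).trans (f.norm_coe_le_norm x)
  have h2 := hμ.1 _ h1
  rw [map_sub, map_smul, hμ.2, smul_eq_mul, mul_one] at h2
  linarith

theorem prob_sub (K : Type u) [TopologicalSpace K] [CompactSpace K] :
    Prob K ⊆ DBall C(K, ℝ) := by
  intro μ hμ f
  rw [abs_le]
  constructor
  · have := prob_le K μ hμ (-f)
    rw [map_neg, norm_neg] at this
    linarith
  · exact prob_le K μ hμ f

theorem prob_closed (K : Type u) [TopologicalSpace K] [CompactSpace K] : IsClosed (Prob K) := by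
  have h1 : Prob K = (⋂ f : {f : C(K, ℝ) // 0 ≤ f}, {μ : WeakDual ℝ C(K, ℝ) | 0 ≤ μ f.1})
      ∩ {μ | μ 1 = 1} := by
    ext μ
    constructor
    · rintro ⟨h1, h2⟩
      exact ⟨mem_iInter.2 (fun f => h1 f.1 f.2), h2⟩
    · rintro ⟨h1, h2⟩
      exact ⟨fun f hf => mem_iInter.1 h1 ⟨f, hf⟩, h2⟩
  rw [h1]
  refine IsClosed.inter (isClosed_iInter (fun f => ?_)) ?_
  · exact isClosed_le continuous_const (WeakDual.eval_continuous _)
  · exact isClosed_eq (WeakDual.eval_continuous _) continuous_const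

theorem dirac_prob (K : Type u) [TopologicalSpace K] [CompactSpace K] (x : K) :
    dirac K x ∈ Prob K := ⟨fun f hf => hf x, rfl⟩

/-- (iii) implies (i) -/
theorem III_I (K : Type u) [TopologicalSpace K] [CompactSpace K] (h : CondIII.{u, w} K) :
    CondI.{u, w} K := by
  obtain ⟨Γ, _, r, R, hD⟩ := h
  have hcomp : IsCompact (Prob K) :=
    (Pool.Agent.K3h57.RK.isCompact_DBall C(K, ℝ)).of_isClosed_subset (prob_closed K) (prob_sub K)
  have hMS : ∀ p ∈ {p : ℝ × ℝ | 0 ≤ p.1 ∧ 0 ≤ p.2 ∧ p.1 + p.2 = 1}, ∀ a ∈ Prob K, ∀ b ∈ Prob K,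
      p.1 • a + p.2 • b ∈ Prob K := by
    rintro p ⟨hp1, hp2, hp3⟩ a ha b hb
    constructor
    · intro f hf
      show 0 ≤ p.1 * a f + p.2 * b f
      have h1 := ha.1 f hf
      have h2 := hb.1 f hf
      positivity
    · show p.1 * a 1 + p.2 * b 1 = 1
      rw [ha.2, hb.2]
      linarith
  refine fin K (Prob K) hcomp (prob_sub K) (dirac_prob K)
    {p : ℝ × ℝ | 0 ≤ p.1 ∧ 0 ≤ p.2 ∧ p.1 + p.2 = 1} ?_ hMS ?_ r R ?_
  · intro c h0 h1
    exact ⟨h0, by show 0 ≤ 1 - c; linarith, by show c + (1 - c) = 1; ring⟩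
  · intro C _ hC hCv hCd _
    exact (K3h43.RK.hull K).1 C hC hCv hCd
  · rintro p ⟨hp1, hp2, hp3⟩ a b ⟨sa, ha⟩ ⟨sb, hb⟩ c hc
    have h1 : (a : WeakDual ℝ C(K, ℝ)) ∈ (Subtype.val : Prob K → WeakDual ℝ C(K, ℝ)) ''
        ⋃ s, range (r s) := ⟨a, mem_iUnion.2 ⟨sa, ha⟩, rfl⟩
    have h2 : (b : WeakDual ℝ C(K, ℝ)) ∈ (Subtype.val : Prob K → WeakDual ℝ C(K, ℝ)) ''
        ⋃ s, range (r s) := ⟨b, mem_iUnion.2 ⟨sb, hb⟩, rfl⟩
    obtain ⟨c', hc', hcc⟩ := hD h1 h2 hp1 hp2 hp3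
    have h3 : c' = c := Subtype.ext (hcc.trans hc.symm)
    rw [← h3]
    exact mem_iUnion.1 hc'

/-- (ii) implies (i) -/
theorem II_I (K : Type u) [TopologicalSpace K] [CompactSpace K] (h : CondII.{u, w} K) :
    CondI.{u, w} K := by
  rcases isEmpty_or_nonempty K with hK | hK
  · refine ⟨PUnit, inferInstance, fun _ => ContinuousLinearMap.id ℝ _, ?_⟩
    have hsub : Subsingleton C(K, ℝ) := ⟨fun f g => by ext x; exact (hK.false x).elim⟩
    refine ⟨⟨PUnit.unit⟩, fun s t => ⟨PUnit.unit, le_rfl, le_rfl⟩, fun s => rfl, fun s => ?_,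
      fun s => ?_, fun x => ⟨PUnit.unit, x, rfl⟩, fun s t _ => ⟨rfl, rfl⟩, fun σ hσ => ?_⟩
    · exact ContinuousLinearMap.norm_id_le
    · infer_instance
    · exact absurd (hσ Nat.zero_lt_one) (lt_irrefl _)
  obtain ⟨Γ, _, r, R, hD, hneg⟩ := h
  have hcomp : IsCompact (DBall C(K, ℝ)) := Pool.Agent.K3h57.RK.isCompact_DBall C(K, ℝ)
  let M : Set (ℝ × ℝ) := {p : ℝ × ℝ | 0 ≤ p.1 ∧ 0 ≤ p.2 ∧ p.1 + p.2 = 1} ∪ {(-1, 0)}
  have hMS : ∀ p ∈ M, ∀ a ∈ DBall C(K, ℝ), ∀ b ∈ DBall C(K, ℝ),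
      p.1 • a + p.2 • b ∈ DBall C(K, ℝ) := by
    rintro p (⟨hp1, hp2, hp3⟩ | hp) a ha b hb
    · intro f
      show |p.1 * a f + p.2 * b f| ≤ ‖f‖
      have h1 := ha f
      have h2 := hb f
      calc |p.1 * a f + p.2 * b f| ≤ |p.1 * a f| + |p.2 * b f| := abs_add_le _ _
        _ = p.1 * |a f| + p.2 * |b f| := by rw [abs_mul, abs_mul, abs_of_nonneg hp1,
            abs_of_nonneg hp2]
        _ ≤ p.1 * ‖f‖ + p.2 * ‖f‖ := by gcongr
        _ = ‖f‖ := by rw [← add_mul, hp3, one_mul]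
    · rw [mem_singleton_iff] at hp
      intro f
      show |p.1 * a f + p.2 * b f| ≤ ‖f‖
      rw [hp]
      have h1 := ha f
      simpa using h1
  refine fin K (DBall C(K, ℝ)) hcomp subset_rfl (fun x => prob_sub K (dirac_prob K x))
    M ?_ hMS ?_ r R ?_
  · intro c h0 h1
    exact Or.inl ⟨h0, by show 0 ≤ 1 - c; linarith, by show c + (1 - c) = 1; ring⟩
  · intro C _ hC hCv hCd hCM
    refine (K3h43.RK.hull K).2 C hC hCv hCd (fun x => ?_) ⟨_, hCd hK.some⟩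
    have h1 := hCM (-1, 0) (Or.inr rfl) _ (hCd x) _ (hCd x)
    simpa using h1
  · rintro p (⟨hp1, hp2, hp3⟩ | hp) a b ⟨sa, ha⟩ ⟨sb, hb⟩ c hc
    · have h1 : (a : WeakDual ℝ C(K, ℝ)) ∈ (Subtype.val : DBall C(K, ℝ) → WeakDual ℝ C(K, ℝ)) ''
          ⋃ s, range (r s) := ⟨a, mem_iUnion.2 ⟨sa, ha⟩, rfl⟩
      have h2 : (b : WeakDual ℝ C(K, ℝ)) ∈ (Subtype.val : DBall C(K, ℝ) → WeakDual ℝ C(K, ℝ)) ''
          ⋃ s, range (r s) := ⟨b, mem_iUnion.2 ⟨sb, hb⟩, rfl⟩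
      obtain ⟨c', hc', hcc⟩ := hD h1 h2 hp1 hp2 hp3
      have h3 : c' = c := Subtype.ext (hcc.trans hc.symm)
      rw [← h3]
      exact mem_iUnion.1 hc'
    · rw [mem_singleton_iff] at hp
      have h1 : (a : WeakDual ℝ C(K, ℝ)) ∈ (Subtype.val : DBall C(K, ℝ) → WeakDual ℝ C(K, ℝ)) ''
          ⋃ s, range (r s) := ⟨a, mem_iUnion.2 ⟨sa, ha⟩, rfl⟩
      obtain ⟨c', hc', hcc⟩ := hneg _ h1
      have h3 : c' = c := by
        apply Subtype.ext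
        rw [hcc, hc, hp]
        simp
      rw [← h3]
      exact mem_iUnion.1 hc'

/-- (i) implies (ii) -/
theorem I_II (K : Type u) [TopologicalSpace K] [CompactSpace K] (h : CondI.{u, w} K) :
    CondII.{u, w} K := by
  obtain ⟨Γ, hΓ, P, hP⟩ := h
  obtain ⟨r, h1, h2, h3⟩ := Pool.Agent.K3h57.RK.dual C(K, ℝ) Γ P hP
  exact ⟨Γ, hΓ, r, h1, h2, h3⟩

end K3h48.RK
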