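import Mathlib

/-!
# MP_baa10a_an: retractional and projectional skeletons

Definitions and statements of the bricks.
-/

namespace K3h48.RK

open Set Topology Filter

universe u v w

/-- `r` is a retractional skeleton in `L`. -/
structure IsRSkeleton {L : Type u} [TopologicalSpace L] {Γ : Type w} [PartialOrder Γ]
    (r : Γ → L → L) : Prop where
  nonempty : Nonempty Γ
  directed : ∀ s t : Γ, ∃ q, s ≤ q ∧ t ≤ q
  cont : ∀ s, Continuous (r s)
  retr : ∀ s x, r s (r s x) = r s x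
  metr : ∀ s, TopologicalSpace.MetrizableSpace (range (r s))
  comp : ∀ s t, s ≤ t → r s = r s ∘ r t ∧ r s = r t ∘ r s
  seq : ∀ σ : ℕ → Γ, StrictMono σ → ∃ t, IsLUB (range σ) t ∧
    ∀ x, Tendsto (fun n => r (σ n) x) atTop (𝓝 (r t x))
  conv : ∀ x, Tendsto (fun s => r s x) atTop (𝓝 x)

/-- `P` is a 1-projectional skeleton in `X`. -/
structure IsProjSkeleton {X : Type u} [NormedAddCommGroup X] [NormedSpace ℝ X]
    {Γ : Type w} [PartialOrder Γ] (P : Γ → X →L[ℝ] X) : Prop where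
  nonempty : Nonempty Γ
  directed : ∀ s t : Γ, ∃ q, s ≤ q ∧ t ≤ q
  proj : ∀ s, P s ∘L P s = P s
  norm_le : ∀ s, ‖P s‖ ≤ 1
  sep : ∀ s, TopologicalSpace.SeparableSpace (range (P s))
  union : ∀ x : X, ∃ s, x ∈ range (P s)
  comp : ∀ s t, s ≤ t → P s = P s ∘L P t ∧ P s = P t ∘L P s
  seq : ∀ σ : ℕ → Γ, StrictMono σ → ∃ t, IsLUB (range σ) t ∧
    range (P t) = closure (⋃ n, range (P (σ n)))

/-- The closed unit ball of the dual of `X` with the weak* topology. -/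
def DBall (X : Type u) [NormedAddCommGroup X] [NormedSpace ℝ X] : Set (WeakDual ℝ X) :=
  {φ | ∀ x : X, |φ x| ≤ ‖x‖}

/-- The Radon probability measures on the compact space `K`, as the positive normalised linear
functionals on `C(K)`, with the weak* topology. -/
def Prob (K : Type u) [TopologicalSpace K] [CompactSpace K] : Set (WeakDual ℝ C(K, ℝ)) :=
  {μ | (∀ f : C(K, ℝ), 0 ≤ f → 0 ≤ μ f) ∧ μ 1 = 1}

/-- (i) -/
def CondI (K : Type u) [TopologicalSpace K] [CompactSpace K] : Prop :=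
  ∃ (Γ : Type w) (_ : PartialOrder Γ) (P : Γ → C(K, ℝ) →L[ℝ] C(K, ℝ)), IsProjSkeleton P

/-- (ii) -/
def CondII (K : Type u) [TopologicalSpace K] [CompactSpace K] : Prop :=
  ∃ (Γ : Type w) (_ : PartialOrder Γ) (r : Γ → DBall C(K, ℝ) → DBall C(K, ℝ)),
    IsRSkeleton r ∧
    Convex ℝ ((Subtype.val : DBall C(K, ℝ) → WeakDual ℝ C(K, ℝ)) '' ⋃ s, range (r s)) ∧
    ∀ φ ∈ (Subtype.val : DBall C(K, ℝ) → WeakDual ℝ C(K, ℝ)) '' ⋃ s, range (r s),
      -φ ∈ (Subtype.val : DBall C(K, ℝ) → WeakDual ℝ C(K, ℝ)) '' ⋃ s, range (r s)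

/-- (iii) -/
def CondIII (K : Type u) [TopologicalSpace K] [CompactSpace K] : Prop :=
  ∃ (Γ : Type w) (_ : PartialOrder Γ) (r : Γ → Prob K → Prob K),
    IsRSkeleton r ∧
    Convex ℝ ((Subtype.val : Prob K → WeakDual ℝ C(K, ℝ)) '' ⋃ s, range (r s))

/-- The Dirac functionals. -/
noncomputable def dirac (K : Type u) [TopologicalSpace K] [CompactSpace K] (x : K) :
    WeakDual ℝ C(K, ℝ) :=
  StrongDual.toWeakDual (ContinuousMap.evalCLM ℝ x)

/-- Brick BALL. -/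
def t_BALL : Prop := ∀ (X : Type u) [NormedAddCommGroup X] [NormedSpace ℝ X],
  IsCompact (DBall X)

/-- Brick HULL. -/
def t_HULL : Prop := ∀ (K : Type u) [TopologicalSpace K] [CompactSpace K],
  (∀ (C : Set (WeakDual ℝ C(K, ℝ))), IsClosed C → Convex ℝ C → (∀ x, dirac K x ∈ C) →
    Prob K ⊆ C) ∧
  (∀ (C : Set (WeakDual ℝ C(K, ℝ))), IsClosed C → Convex ℝ C → (∀ x, dirac K x ∈ C) →
    (∀ x, - dirac K x ∈ C) → C.Nonempty → DBall C(K, ℝ) ⊆ C)

/-- Brick DUAL. -/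
def t_DUAL : Prop := ∀ (X : Type u) [NormedAddCommGroup X] [NormedSpace ℝ X] (Γ : Type w)
  [PartialOrder Γ] (P : Γ → X →L[ℝ] X), IsProjSkeleton P →
  ∃ r : Γ → DBall X → DBall X, IsRSkeleton r ∧
    Convex ℝ ((Subtype.val : DBall X → WeakDual ℝ X) '' ⋃ s, range (r s)) ∧
    ∀ φ ∈ (Subtype.val : DBall X → WeakDual ℝ X) '' ⋃ s, range (r s),
      -φ ∈ (Subtype.val : DBall X → WeakDual ℝ X) '' ⋃ s, range (r s)

end K3h48.RK
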